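import Pool.Agent.UMG.StmtsB

/-!
# Row CSM of squad UMG, block B
-/

set_option autoImplicit false

namespace Pool.Agent.UMG.B.H17

open Finset Pool.Agent.UMG Pool.Agent.UMG.B

theorem csm_step (hpcf : PcfStmt) {Φ : (A : Type) → Equiv.Perm A → ℕ} (hΦ : CInv Φ) (k : ℕ) :
    ∑ ρ : Equiv.Perm (Fin (k + 1)), Φ (Fin (k + 1)) ρ =
      ∑ i ∈ range (k + 1), k.descFactorial i * ∑ π' : Equiv.Perm (Fin (k - i)),
        Φ (Fin (i + 1) ⊕ Fin (k - i)) (Equiv.sumCongr (finRotate (i + 1)) π') := by
  have h := hpcf 0 (fun A π _ => Φ A π) (fun A A' e _ π _ π' _ h1 _ => hΦ A A' e π π' h1) k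
  simpa [Fintype.card_perm] using h

theorem csm (hpcf : PcfStmt) : CsmStmt := by
  intro Φ hΦ k
  induction k using Nat.strong_induction_on generalizing Φ with
  | _ k ih =>
    rcases k with _ | k
    · rw [csum.eq_def]
      have : IsEmpty (PT []) := inferInstanceAs (IsEmpty Empty)
      rw [Fintype.sum_unique]
      exact hΦ _ _ (Equiv.equivOfIsEmpty (Fin 0) (PT [])) _ _ (fun a => a.elim0)
    · rw [csm_step hpcf hΦ k, csum.eq_def]
      refine Finset.sum_congr rfl fun i hi => ?_
      have h1 := ih (k - i) (by omega)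
        (fun A π' => Φ (Fin (i + 1) ⊕ A) (Equiv.sumCongr (finRotate (i + 1)) π')) (by
          intro A A' e ρ ρ' h
          refine hΦ _ _ (Equiv.sumCongr (Equiv.refl _) e) _ _ ?_
          rintro (a | a)
          · rfl
          · exact congrArg Sum.inr (h a))
      rw [Nat.cast_id]
      rw [h1]
      rfl

end Pool.Agent.UMG.B.H17
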