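import Pool.Agent.UMG.StmtsD

/-!
# Row PCK of squad UMG
-/

set_option autoImplicit false

namespace Pool.Agent.UMG.D.H17

open Finset Pool.Agent.UMG

theorem cum_mono (w : ℕ → ℕ) {i j : ℕ} (h : i ≤ j) : cum w i ≤ cum w j := by
  unfold cum
  exact Finset.sum_le_sum_of_subset (Finset.range_mono h)

theorem cum_succ (w : ℕ → ℕ) (m : ℕ) : cum w (m + 1) = cum w m + w m := by
  unfold cum
  exact Finset.sum_range_succ _ _

theorem pick_eq (m : ℕ) (w : ℕ → ℕ) (u : ℕ) :
    pick m w u = ∑ i ∈ range m, if cum w (i + 1) ≤ u then 1 else 0 := rfl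

theorem pick_lt {m : ℕ} {w : ℕ → ℕ} {u : ℕ} (h : u < cum w m) :
    pick (m + 1) w u = pick m w u := by
  rw [pick_eq, pick_eq, Finset.sum_range_succ, if_neg, add_zero]
  have : cum w m ≤ cum w (m + 1) := cum_mono w (Nat.le_succ m)
  omega

theorem pick_last {m : ℕ} {w : ℕ → ℕ} {z : ℕ} (h : z < w m) :
    pick (m + 1) w (cum w m + z) = m := by
  rw [pick_eq, Finset.sum_range_succ, if_neg (by rw [cum_succ]; omega), add_zero]
  have e : ∑ i ∈ range m, (if cum w (i + 1) ≤ cum w m + z then 1 else 0) = ∑ i ∈ range m, 1 := by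
    refine Finset.sum_congr rfl fun i hi => ?_
    have h1 := cum_mono w (Nat.succ_le_of_lt (Finset.mem_range.mp hi))
    rw [if_pos]
    exact le_trans h1 (Nat.le_add_right _ _)
  rw [e]
  simp

theorem pck : PckStmt := by
  intro m w Ψ
  induction m with
  | zero => simp [cum]
  | succ m ih =>
    rw [Finset.sum_range_succ (fun i => ∑ z ∈ range (w i), Ψ i z) m, ← ih, cum_succ,
      Finset.sum_range_add]
    congr 1
    · refine Finset.sum_congr rfl fun u hu => ?_
      rw [pick_lt (Finset.mem_range.mp hu)]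
    · refine Finset.sum_congr rfl fun z hz => ?_
      rw [pick_last (Finset.mem_range.mp hz), Nat.add_sub_cancel_left]

end Pool.Agent.UMG.D.H17
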